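import Pool.Agent.H15.JD.Ci

/-! The number of the chains of primes `p_1, ..., p_k` with `a_j p_{j-1} < p_j < a_j (p_{j-1} + 1)` and multipliers `a_j` of
polylogarithmic size which start at `p_0 = m`, for almost all integers `m`. -/

set_option autoImplicit false

namespace Pool.Agent.Results.MP_2033ac_nt.ChainsFromAlmostAll
open Finset

/-- The sum of `∏_j log p_j` over the chains of primes `p_1, ..., p_k` which start at `p_0 = m` and have the multipliers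
`a`, that is `⌊p_j / a_j⌋ = p_{j-1}` for all `j`. A chain is given by its last member `n`: its members are the integer parts
`⌊n / (a_{j+1} ... a_k)⌋`; that it starts at `m` means `m ∏ a_i ≤ n < (m + 1) ∏ a_i`. -/
noncomputable def chains {k : ℕ} (a : Fin k → ℕ) (m : ℕ) : ℝ :=
  ∑ n ∈ Finset.Ico ((∏ j, a j) * m) ((∏ j, a j) * (m + 1)),
    ∏ j, if (n / ∏ i ∈ Finset.Ioi j, a i).Prime then Real.log ((n / ∏ i ∈ Finset.Ioi j, a i : ℕ) : ℝ) else 0

/-- For all `k` and `B` there are `C` and `N₀` with the following property. Let `N ≥ N₀`, let `(log N)^C ≤ P_j ≤ N^B` and let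
`A_j` be any set of at least `P_j / (log N)^B` primes in `(P_j / 2, P_j]`, `j ≤ k`. For all but at most `N / (log N)^B` of
the integers `m` in `[N, 2 N)` the sum of `chains(a, m)` over all `a` in `A_1 × ... × A_k` is
`(1 + θ / (log N)^B) ∑_a ∏_j a_j` with `|θ| ≤ 1`. -/
theorem result (k B : ℕ) : ∃ (C : ℕ) (N₀ : ℝ), ∀ (N : ℕ) (P : Fin k → ℝ) (A : Fin k → Finset ℕ), N₀ ≤ N →
    (∀ j, Real.log N ^ C ≤ P j) → (∀ j, P j ≤ (N : ℝ) ^ B) →
    (∀ j, ∀ a ∈ A j, a.Prime ∧ P j / 2 < a ∧ (a : ℝ) ≤ P j) → (∀ j, P j / Real.log N ^ B ≤ (A j).card) →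
    ∃ X : Finset ℕ, (X.card : ℝ) ≤ N / Real.log N ^ B ∧ ∀ m : ℕ, N ≤ m → m < 2 * N → m ∉ X →
      |∑ a ∈ Fintype.piFinset A, chains a m - ∑ a ∈ Fintype.piFinset A, ∏ j, (a j : ℝ)| ≤
        (∑ a ∈ Fintype.piFinset A, ∏ j, (a j : ℝ)) / Real.log N ^ B := by
  classical
  obtain ⟨C, N₀, h⟩ := Pool.Agent.H15.JD.chain_dual k B
  refine ⟨C, N₀, fun N P A hN h1 h2 h3 h4 => ⟨_, h N P A hN h1 h2 h3 h4, ?_⟩⟩
  intro m hm1 hm2 hmX
  rw [Finset.mem_filter, Finset.mem_Ico, not_and] at hmX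
  exact not_lt.1 (hmX ⟨hm1, hm2⟩)

end Pool.Agent.Results.MP_2033ac_nt.ChainsFromAlmostAll
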